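import Mathlib

/-!
# Local Zariski closures and algebraic families of symmetries: definitions
-/

set_option autoImplicit false

namespace Pool.Agent.K1H12.QH

open MvPolynomial

variable {K : Type} [Field K] {n : ℕ}

/-- The nonzero `K`-points of the cone given by the polynomials in `S`. -/
def IsPoint (S : Set (MvPolynomial (Fin (n + 1)) K)) (y : Fin (n + 1) → K) : Prop :=
  y ≠ 0 ∧ ∀ g ∈ S, eval y g = 0

/-- The ideal of the local Zariski closure `Z_x` at the point `x` over `L` of the set of `K`-points
of the projective variety given by `S`: the polynomials which vanish at (all the multiples of) the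
`K`-points in some neighbourhood of `x`. -/
def localIdeal {L : Type} [NontriviallyNormedField L] (σ : K →+* L)
    (S : Set (MvPolynomial (Fin (n + 1)) K)) (x : Fin (n + 1) → L) :
    Set (MvPolynomial (Fin (n + 1)) K) :=
  {f | ∃ U ∈ nhds x, ∀ y : Fin (n + 1) → K, y ≠ 0 → (∀ g ∈ S, eval y g = 0) →
    (∃ c : L, c ≠ 0 ∧ (fun i => c * σ (y i)) ∈ U) → ∀ t : K, eval (t • y) f = 0}

/-- The ideals of the local Zariski closures at all points over `L` of the projective variety given
by `S`. -/
def localIdeals {L : Type} [NontriviallyNormedField L] (σ : K →+* L)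
    (S : Set (MvPolynomial (Fin (n + 1)) K)) : Set (Set (MvPolynomial (Fin (n + 1)) K)) :=
  {J | ∃ x : Fin (n + 1) → L, x ≠ 0 ∧ (∀ g ∈ S, eval₂ σ x g = 0) ∧ J = localIdeal σ S x}

/-- An algebraic family of rational self-maps of the affine space of the homogeneous coordinates, with
parameters `t` in an affine space of dimension `m`. For `t = 0` it is the identity; the map with
parameter `t` is defined at `y` if `den (y, t) ≠ 0`. -/
structure Family (K : Type) [Field K] (n : ℕ) where
  /-- the number of parameters -/
  m : ℕ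
  /-- the coordinates of the image of `y` -/
  map : Fin (n + 1) → MvPolynomial (Fin (n + 1) ⊕ Fin m) K
  /-- where it is defined -/
  den : MvPolynomial (Fin (n + 1) ⊕ Fin m) K
  at_zero : ∀ y : Fin (n + 1) → K, (fun j => eval (Sum.elim y 0) (map j)) = y

/-- The image of `y` under the map with parameter `t`. -/
noncomputable def Family.act (Φ : Family K n) {E : Type} [Field E] [Algebra K E]
    (y : Fin (n + 1) → E) (t : Fin Φ.m → E) : Fin (n + 1) → E :=
  fun j => aeval (Sum.elim y t) (Φ.map j)

/-- The map with parameter `t` is defined at `y`. -/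
def Family.Defined (Φ : Family K n) {E : Type} [Field E] [Algebra K E]
    (y : Fin (n + 1) → E) (t : Fin Φ.m → E) : Prop :=
  aeval (Sum.elim y t) Φ.den ≠ 0

/-- The points which can be reached from `y` by multiplication by scalars and by the maps of the
families in `𝓕`, with coefficients and parameters in the field `E`. -/
inductive Reach (𝓕 : Set (Family K n)) {E : Type} [Field E] [Algebra K E]
    (y : Fin (n + 1) → E) : (Fin (n + 1) → E) → Prop
  | refl : Reach 𝓕 y y
  | smul (z : Fin (n + 1) → E) (c : E) : Reach 𝓕 y z → Reach 𝓕 y (c • z)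
  | step (z : Fin (n + 1) → E) (Φ : Family K n) (t : Fin Φ.m → E) : Φ ∈ 𝓕 → Reach 𝓕 y z →
      Φ.Defined z t → Reach 𝓕 y (Φ.act z t)

/-- The ideal of the Zariski closure of the set of the points which can be reached from `y`, with
coefficients in an algebraic closure. -/
def reachIdeal (𝓕 : Set (Family K n)) (y : Fin (n + 1) → K) : Set (MvPolynomial (Fin (n + 1)) K) :=
  {f | ∀ z : Fin (n + 1) → AlgebraicClosure K,
    Reach 𝓕 (fun i => algebraMap K (AlgebraicClosure K) (y i)) z → aeval z f = 0}

/-- The ideals of the Zariski closures of the sets of the points which can be reached from the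
`K`-points of the projective variety given by `S` which do not lie on the one given by `S'`. -/
def reachIdeals (S S' : Set (MvPolynomial (Fin (n + 1)) K)) (𝓕 : Set (Family K n)) :
    Set (Set (MvPolynomial (Fin (n + 1)) K)) :=
  {T | ∃ y, IsPoint S y ∧ ¬ IsPoint S' y ∧ T = reachIdeal 𝓕 y}

/-- The maps of the families preserve the set of the `K`-points. -/
def Preserves (𝓕 : Set (Family K n)) (S : Set (MvPolynomial (Fin (n + 1)) K)) : Prop :=
  ∀ Φ ∈ 𝓕, ∀ y : Fin (n + 1) → K, (∀ g ∈ S, eval y g = 0) → ∀ t : Fin Φ.m → K,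
    Φ.Defined y t → ∀ g ∈ S, eval (Φ.act y t) g = 0

/-- An algebraic family of matrices, the identity matrix for `t = 0`. -/
structure MatrixFamily (K : Type) [Field K] (n : ℕ) where
  /-- the number of parameters -/
  m : ℕ
  /-- the matrix -/
  mat : Matrix (Fin (n + 1)) (Fin (n + 1)) (MvPolynomial (Fin m) K)
  at_zero : mat.map (eval 0) = 1

/-- The group of matrices over `E` generated by the scalars and by the invertible members of the
families. -/
def grp (𝓐 : Set (MatrixFamily K n)) (E : Type) [Field E] [Algebra K E] :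
    Subgroup (GL (Fin (n + 1)) E) :=
  Subgroup.closure {g | (∃ c : E, (g : Matrix (Fin (n + 1)) (Fin (n + 1)) E) = c • 1) ∨
    ∃ A ∈ 𝓐, ∃ t : Fin A.m → E,
      (g : Matrix (Fin (n + 1)) (Fin (n + 1)) E) = A.mat.map (aeval t)}

/-- The orbit of the `K`-point `y` under a group of matrices over the algebraic closure. -/
def orbit (G : Subgroup (GL (Fin (n + 1)) (AlgebraicClosure K))) (y : Fin (n + 1) → K) :
    Set (Fin (n + 1) → AlgebraicClosure K) :=
  {z | ∃ g ∈ G, z = (g : Matrix (Fin (n + 1)) (Fin (n + 1)) (AlgebraicClosure K)).mulVec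
    fun i => algebraMap K (AlgebraicClosure K) (y i)}

/-- The orbits of the `K`-points of the projective variety given by `S` which do not lie on the one
given by `S'`. -/
def orbits (S S' : Set (MvPolynomial (Fin (n + 1)) K))
    (G : Subgroup (GL (Fin (n + 1)) (AlgebraicClosure K))) :
    Set (Set (Fin (n + 1) → AlgebraicClosure K)) :=
  {O | ∃ y, IsPoint S y ∧ ¬ IsPoint S' y ∧ O = orbit G y}

/-- The group preserves the projective variety given by `S`, over the algebraic closure. -/
def Stable (S : Set (MvPolynomial (Fin (n + 1)) K))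
    (G : Subgroup (GL (Fin (n + 1)) (AlgebraicClosure K))) : Prop :=
  ∀ g ∈ G, ∀ z : Fin (n + 1) → AlgebraicClosure K, (∀ f ∈ S, aeval z f = 0) →
    ∀ f ∈ S, aeval ((g : Matrix (Fin (n + 1)) (Fin (n + 1)) (AlgebraicClosure K)).mulVec z) f = 0

/-- The ideal of the Zariski closure of a set of points. -/
def idealOf {E : Type} [Field E] [Algebra K E] (O : Set (Fin (n + 1) → E)) :
    Set (MvPolynomial (Fin (n + 1)) K) :=
  {f | ∀ z ∈ O, aeval z f = 0}

/-- The binomial equations of the projective toric variety which is the closure of the set of the points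
`(c 0 * t ^ a 0 : … : c n * t ^ a n)`. -/
def toricEquations {r : ℕ} (a : Fin (n + 1) → Fin r → ℕ) (c : Fin (n + 1) → K) :
    Set (MvPolynomial (Fin (n + 1)) K) :=
  {f | ∃ u v : Fin (n + 1) → ℕ, ∑ i, u i = ∑ i, v i ∧
    (∀ j, ∑ i, a i j * u i = ∑ i, a i j * v i) ∧
    f = C (∏ i, c i ^ v i) * ∏ i, X i ^ u i - C (∏ i, c i ^ u i) * ∏ i, X i ^ v i}

end Pool.Agent.K1H12.QH
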