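import Pool.Agent.K1H12.QH.Grp

/-!
# The finiteness theorems
-/

set_option autoImplicit false

namespace Pool.Agent.K1H12.QH

open MvPolynomial Filter Topology Matrix

variable {K : Type} [Field K] {n : ℕ} {L : Type} [NontriviallyNormedField L]

theorem families {σ : K →+* L} (hσ : DenseRange σ) {S S' : Set (MvPolynomial (Fin (n + 1)) K)}
    (hS' : ∀ f ∈ S', ∃ d : ℕ, f.IsHomogeneous d) (hSS : S ⊆ S')
    {𝓕 : Set (Family K n)} (h𝓕 : Preserves 𝓕 S)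
    (hfin : (reachIdeals S S' 𝓕).Finite) :
    (∀ x, ∃ 𝓣 ⊆ reachIdeals S S' 𝓕, localIdeal σ S x = localIdeal σ S' x ∩ ⋂₀ 𝓣) ∧
      ((localIdeals σ S').Finite → (localIdeals σ S).Finite) := by
  have h1 : ∀ x, ∃ 𝓣 ⊆ reachIdeals S S' 𝓕,
      localIdeal σ S x = localIdeal σ S' x ∩ ⋂₀ 𝓣 := fun x =>
    local_sInter hSS (local_reach hσ (fun f hf => hS' f (hSS hf)) h𝓕 x) hfin
  refine ⟨h1, fun h2 => ?_⟩
  refine (((h2.union (Set.finite_singleton Set.univ)).prod hfin.powerset).image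
    (fun q => q.1 ∩ ⋂₀ q.2)).subset ?_
  rintro _ ⟨x, hx, -, rfl⟩
  obtain ⟨𝓣, h3, h4⟩ := h1 x
  refine ⟨(localIdeal σ S' x, 𝓣), ⟨?_, h3⟩, h4.symm⟩
  by_cases h5 : ∀ g ∈ S', eval₂ σ x g = 0
  · exact Or.inl ⟨x, hx, h5, rfl⟩
  · exact Or.inr (local_outside hS' h5)

theorem groups {σ : K →+* L} (hσ : DenseRange σ) {S S' : Set (MvPolynomial (Fin (n + 1)) K)}
    (hS' : ∀ f ∈ S', ∃ d : ℕ, f.IsHomogeneous d) (hSS : S ⊆ S')
    {𝓐 : Set (MatrixFamily K n)}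
    (hstab : Stable S (grp 𝓐 (AlgebraicClosure K)))
    (hfin : (orbits S S' (grp 𝓐 (AlgebraicClosure K))).Finite) :
    (∀ x, ∃ 𝓞 ⊆ orbits S S' (grp 𝓐 (AlgebraicClosure K)),
      localIdeal σ S x = localIdeal σ S' x ∩ idealOf (⋃₀ 𝓞)) ∧
      ((localIdeals σ S').Finite → (localIdeals σ S).Finite) := by
  have hpres : Preserves (fams 𝓐) S := stable_fams hstab
  have hfin' : (reachIdeals S S' (fams 𝓐)).Finite := by
    refine (hfin.image idealOf).subset ?_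
    rintro _ ⟨y, hy, hy', rfl⟩
    exact ⟨_, ⟨y, hy, hy', rfl⟩, (reachIdeal_eq y).symm⟩
  obtain ⟨h1, h2⟩ := families hσ hS' hSS hpres hfin'
  refine ⟨fun x => ?_, h2⟩
  obtain ⟨𝓣, h3, h4⟩ := h1 x
  refine ⟨{O | O ∈ orbits S S' (grp 𝓐 (AlgebraicClosure K)) ∧ idealOf O ∈ 𝓣},
    fun O hO => hO.1, ?_⟩
  rw [h4]
  congr 1
  ext f
  constructor
  · rintro hf z ⟨O, ⟨-, hO⟩, hz⟩
    exact hf _ hO z hz
  · intro hf T hT
    obtain ⟨y, hy, hy', rfl⟩ := h3 hT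
    rw [reachIdeal_eq] at hT ⊢
    intro z hz
    exact hf z ⟨_, ⟨⟨y, hy, hy', rfl⟩, hT⟩, hz⟩

end Pool.Agent.K1H12.QH
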