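import Pool.Agent.K1H12.QH.Main

/-!
# Finitely many orbits
-/

set_option autoImplicit false

namespace Pool.Agent.K1H12.QH

open MvPolynomial Filter Topology Matrix

variable {K : Type} [Field K] {n : ℕ} {L : Type} [NontriviallyNormedField L]

/-- finitely many ideals -/
theorem local_sInter {σ : K →+* L} {S S' : Set (MvPolynomial (Fin (n + 1)) K)} (hSS : S ⊆ S')
    {𝓕 : Set (Family K n)} {x : Fin (n + 1) → L}
    (hloc : localIdeal σ S x = {f | ∃ U ∈ 𝓝 x, ∀ y, IsPoint S y →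
      (∃ c : L, c ≠ 0 ∧ (fun i => c * σ (y i)) ∈ U) → f ∈ reachIdeal 𝓕 y})
    (hfin : (reachIdeals S S' 𝓕).Finite) :
    ∃ 𝓣 ⊆ reachIdeals S S' 𝓕, localIdeal σ S x = localIdeal σ S' x ∩ ⋂₀ 𝓣 := by
  classical
  refine ⟨{T | ∀ U ∈ 𝓝 x, ∃ y, IsPoint S y ∧ ¬ IsPoint S' y ∧
    (∃ c : L, c ≠ 0 ∧ (fun i => c * σ (y i)) ∈ U) ∧ T = reachIdeal 𝓕 y}, ?_, ?_⟩
  · intro T hT
    obtain ⟨y, hy, hy', -, rfl⟩ := hT Set.univ univ_mem
    exact ⟨y, hy, hy', rfl⟩
  · ext f
    constructor
    · intro hf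
      refine ⟨?_, ?_⟩
      · obtain ⟨U, hU, h⟩ := hf
        exact ⟨U, hU, fun y hy0 hy => h y hy0 fun g hg => hy g (hSS hg)⟩
      · rw [hloc] at hf
        obtain ⟨U, hU, h⟩ := hf
        intro T hT
        obtain ⟨y, hy, -, hc, rfl⟩ := hT U hU
        exact h y hy hc
    · rintro ⟨⟨U₁, hU₁, hf₁⟩, hf⟩
      have h1 : ∀ T ∈ reachIdeals S S' 𝓕, ∃ U ∈ 𝓝 x, ∀ y, IsPoint S y → ¬ IsPoint S' y →
          (∃ c : L, c ≠ 0 ∧ (fun i => c * σ (y i)) ∈ U) → T = reachIdeal 𝓕 y → f ∈ T := by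
        intro T _
        by_cases hT : ∀ U ∈ 𝓝 x, ∃ y, IsPoint S y ∧ ¬ IsPoint S' y ∧
            (∃ c : L, c ≠ 0 ∧ (fun i => c * σ (y i)) ∈ U) ∧ T = reachIdeal 𝓕 y
        · exact ⟨Set.univ, univ_mem, fun _ _ _ _ _ => hf T hT⟩
        · push Not at hT
          obtain ⟨U, hU, h2⟩ := hT
          exact ⟨U, hU, fun y hy hy' hc hTy => absurd hTy (h2 y hy hy' hc)⟩
      choose! U hU h2 using h1
      refine ⟨U₁ ∩ ⋂ T ∈ reachIdeals S S' 𝓕, U T, inter_mem hU₁ ((biInter_mem hfin).2 hU), ?_⟩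
      rintro y hy0 hy ⟨c, hc, hcy⟩ t
      by_cases hy' : IsPoint S' y
      · exact hf₁ y hy0 hy'.2 ⟨c, hc, hcy.1⟩ t
      have h3 := Set.mem_iInter₂.1 hcy.2 (reachIdeal 𝓕 y) ⟨y, ⟨hy0, hy⟩, hy', rfl⟩
      have h4 := h2 (reachIdeal 𝓕 y) ⟨y, ⟨hy0, hy⟩, hy', rfl⟩ y ⟨hy0, hy⟩ hy' ⟨c, hc, h3⟩ rfl
      exact eval_of_reach h4 t

/-- the family of the matrices -/
noncomputable def MatrixFamily.toFamily (A : MatrixFamily K n) : Family K n where
  m := A.m
  map j := ∑ k, rename Sum.inr (A.mat j k) * X (Sum.inl k)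
  den := rename Sum.inr A.mat.det
  at_zero y := by
    funext j
    rw [map_sum]
    simp_rw [map_mul, eval_rename, eval_X, Sum.elim_comp_inr, Sum.elim_inl]
    have h1 : ∀ k, eval 0 (A.mat j k) = (1 : Matrix (Fin (n + 1)) (Fin (n + 1)) K) j k := by
      intro k
      rw [← A.at_zero]
      rfl
    simp_rw [h1]
    change ((1 : Matrix (Fin (n + 1)) (Fin (n + 1)) K) *ᵥ y) j = y j
    rw [one_mulVec]

/-- the family of the inverse matrices, up to scalars -/
noncomputable def MatrixFamily.invFamily (A : MatrixFamily K n) : Family K n where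
  m := A.m
  map j := ∑ k, rename Sum.inr (A.mat.adjugate j k) * X (Sum.inl k)
  den := rename Sum.inr A.mat.det
  at_zero y := by
    funext j
    rw [map_sum]
    simp_rw [map_mul, eval_rename, eval_X, Sum.elim_comp_inr, Sum.elim_inl]
    have h1 : ∀ k, eval 0 (A.mat.adjugate j k) =
        (1 : Matrix (Fin (n + 1)) (Fin (n + 1)) K) j k := by
      intro k
      have h2 := RingHom.map_adjugate (eval (0 : Fin A.m → K)) A.mat
      have h3 : (eval (0 : Fin A.m → K)).mapMatrix A.mat = 1 := A.at_zero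
      rw [h3, adjugate_one] at h2
      rw [← h2]
      rfl
    simp_rw [h1]
    change ((1 : Matrix (Fin (n + 1)) (Fin (n + 1)) K) *ᵥ y) j = y j
    rw [one_mulVec]

section

variable {E : Type} [Field E] [Algebra K E]

/-- the matrix at a point -/
noncomputable def MatrixFamily.at (A : MatrixFamily K n) (t : Fin A.m → E) :
    Matrix (Fin (n + 1)) (Fin (n + 1)) E := A.mat.map (aeval t)

theorem act_to (A : MatrixFamily K n) (z : Fin (n + 1) → E) (t : Fin A.m → E) :
    A.toFamily.act z t = A.at t *ᵥ z := by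
  funext j
  change aeval (Sum.elim z t) (∑ k, rename Sum.inr (A.mat j k) * X (Sum.inl k)) = _
  rw [map_sum]
  simp_rw [map_mul, aeval_rename, aeval_X, Sum.elim_comp_inr, Sum.elim_inl]
  rfl

theorem at_det (A : MatrixFamily K n) (t : Fin A.m → E) :
    (A.at t).det = aeval t A.mat.det := by
  have h := AlgHom.map_det (aeval t : MvPolynomial (Fin A.m) K →ₐ[K] E) A.mat
  rw [h]
  rfl

theorem at_adj (A : MatrixFamily K n) (t : Fin A.m → E) :
    (A.at t).adjugate = A.mat.adjugate.map (aeval t) := by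
  have h := AlgHom.map_adjugate (aeval t : MvPolynomial (Fin A.m) K →ₐ[K] E) A.mat
  exact h.symm

theorem act_inv (A : MatrixFamily K n) (z : Fin (n + 1) → E) (t : Fin A.m → E) :
    A.invFamily.act z t = (A.at t).adjugate *ᵥ z := by
  rw [at_adj]
  funext j
  change aeval (Sum.elim z t) (∑ k, rename Sum.inr (A.mat.adjugate j k) * X (Sum.inl k)) = _
  rw [map_sum]
  simp_rw [map_mul, aeval_rename, aeval_X, Sum.elim_comp_inr, Sum.elim_inl]
  rfl

theorem defined_to (A : MatrixFamily K n) (z : Fin (n + 1) → E) (t : Fin A.m → E) :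
    A.toFamily.Defined z t ↔ (A.at t).det ≠ 0 := by
  rw [at_det]
  change aeval (Sum.elim z t) (rename Sum.inr A.mat.det) ≠ 0 ↔ _
  rw [aeval_rename, Sum.elim_comp_inr]

theorem defined_inv (A : MatrixFamily K n) (z : Fin (n + 1) → E) (t : Fin A.m → E) :
    A.invFamily.Defined z t ↔ (A.at t).det ≠ 0 := by
  rw [at_det]
  change aeval (Sum.elim z t) (rename Sum.inr A.mat.det) ≠ 0 ↔ _
  rw [aeval_rename, Sum.elim_comp_inr]

variable (𝓐 : Set (MatrixFamily K n))

/-- the families -/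
def fams : Set (Family K n) :=
  {Φ | ∃ A ∈ 𝓐, Φ = A.toFamily ∨ Φ = A.invFamily}

variable {𝓐}

theorem scalar_mem {c : E} (hc : c ≠ 0) : ∃ g ∈ grp 𝓐 E,
    (g : Matrix (Fin (n + 1)) (Fin (n + 1)) E) = c • 1 := by
  refine ⟨GeneralLinearGroup.mkOfDetNeZero (c • 1) (by
    rw [det_smul, det_one, mul_one]
    exact pow_ne_zero _ hc), Subgroup.subset_closure (Or.inl ⟨c, rfl⟩), rfl⟩

theorem at_mem {A : MatrixFamily K n} (hA : A ∈ 𝓐) {t : Fin A.m → E} (ht : (A.at t).det ≠ 0) :
    ∃ g ∈ grp 𝓐 E, (g : Matrix (Fin (n + 1)) (Fin (n + 1)) E) = A.at t :=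
  ⟨GeneralLinearGroup.mkOfDetNeZero (A.at t) ht, Subgroup.subset_closure
    (Or.inr ⟨A, hA, t, rfl⟩), rfl⟩

theorem adj_mem {A : MatrixFamily K n} (hA : A ∈ 𝓐) {t : Fin A.m → E} (ht : (A.at t).det ≠ 0) :
    ∃ g ∈ grp 𝓐 E, (g : Matrix (Fin (n + 1)) (Fin (n + 1)) E) = (A.at t).adjugate := by
  obtain ⟨g, hg, hg'⟩ := at_mem hA ht
  obtain ⟨s, hs, hs'⟩ := scalar_mem (𝓐 := 𝓐) ht
  refine ⟨s * g⁻¹, Subgroup.mul_mem _ hs (Subgroup.inv_mem _ hg), ?_⟩
  rw [GeneralLinearGroup.coe_mul, hs', smul_mul_assoc, one_mul, coe_units_inv, hg',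
    Matrix.inv_def, smul_smul, Ring.mul_inverse_cancel _ (isUnit_iff_ne_zero.2 ht), one_smul]

/-- reaching inside the orbit -/
theorem reach_grp {y : Fin (n + 1) → E} {g : GL (Fin (n + 1)) E} (hg : g ∈ grp 𝓐 E) :
    ∀ z, Reach (fams 𝓐) y z → Reach (fams 𝓐) y ((g : Matrix _ _ E) *ᵥ z) := by
  have hgen : ∀ g : GL (Fin (n + 1)) E,
      ((∃ c : E, (g : Matrix (Fin (n + 1)) (Fin (n + 1)) E) = c • 1) ∨
      ∃ A ∈ 𝓐, ∃ t : Fin A.m → E,
        (g : Matrix (Fin (n + 1)) (Fin (n + 1)) E) = A.mat.map (aeval t)) →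
      (∀ z, Reach (fams 𝓐) y z → Reach (fams 𝓐) y ((g : Matrix _ _ E) *ᵥ z)) ∧
      (∀ z, Reach (fams 𝓐) y z → Reach (fams 𝓐) y (((g⁻¹ : GL _ E) : Matrix _ _ E) *ᵥ z)) := by
    rintro g (⟨c, hc⟩ | ⟨A, hA, t, ht⟩)
    · have hc0 : c ≠ 0 := by
        rintro rfl
        have h1 : (g : Matrix (Fin (n + 1)) (Fin (n + 1)) E).det ≠ 0 :=
          (GeneralLinearGroup.det g).ne_zero
        rw [hc, zero_smul, det_zero] at h1
        exact h1 rfl
      have hinv : ((g⁻¹ : GL _ E) : Matrix (Fin (n + 1)) (Fin (n + 1)) E) = c⁻¹ • 1 := by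
        rw [coe_units_inv, hc]
        refine Matrix.inv_eq_left_inv ?_
        rw [smul_mul_smul_comm, inv_mul_cancel₀ hc0, one_smul, one_mul]
      refine ⟨fun z hz => ?_, fun z hz => ?_⟩
      · rw [hc, smul_mulVec, one_mulVec]
        exact Reach.smul _ c hz
      · rw [hinv, smul_mulVec, one_mulVec]
        exact Reach.smul _ _ hz
    · have hd : (A.at t).det ≠ 0 := by
        have h1 : (g : Matrix (Fin (n + 1)) (Fin (n + 1)) E).det ≠ 0 :=
          (GeneralLinearGroup.det g).ne_zero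
        rw [ht] at h1
        exact h1
      refine ⟨fun z hz => ?_, fun z hz => ?_⟩
      · have h1 := Reach.step (𝓕 := fams 𝓐) z A.toFamily t ⟨A, hA, Or.inl rfl⟩ hz
          ((defined_to A z t).2 hd)
        rw [act_to] at h1
        rw [ht]
        exact h1
      · have h1 := Reach.smul _ (A.at t).det⁻¹
          (Reach.step (𝓕 := fams 𝓐) z A.invFamily t ⟨A, hA, Or.inr rfl⟩ hz
            ((defined_inv A z t).2 hd))
        rw [act_inv, ← smul_mulVec] at h1
        rw [coe_units_inv, ht]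
        change Reach (fams 𝓐) y ((A.at t)⁻¹ *ᵥ z)
        rw [Matrix.inv_def, Ring.inverse_eq_inv']
        exact h1
  refine Subgroup.closure_induction'' (G := GL (Fin (n + 1)) E)
    (p := fun (g : GL (Fin (n + 1)) E) _ => ∀ z, Reach (fams 𝓐) y z →
    Reach (fams 𝓐) y ((g : Matrix (Fin (n + 1)) (Fin (n + 1)) E) *ᵥ z)) ?_ ?_ ?_ ?_ hg
  · intro g hg
    exact (hgen g hg).1
  · intro g hg
    exact (hgen g hg).2
  · intro z hz
    rw [GeneralLinearGroup.coe_one, one_mulVec]
    exact hz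
  · intro g h _ _ h1 h2 z hz
    rw [GeneralLinearGroup.coe_mul, ← mulVec_mulVec]
    exact h1 _ (h2 z hz)

theorem grp_reach {y z : Fin (n + 1) → E} (hz : Reach (fams 𝓐) y z) :
    z = 0 ∨ ∃ g ∈ grp 𝓐 E, z = (g : Matrix _ _ E) *ᵥ y := by
  induction hz with
  | refl =>
    refine Or.inr ⟨1, Subgroup.one_mem _, ?_⟩
    rw [GeneralLinearGroup.coe_one, one_mulVec]
  | smul z c _ ih =>
    by_cases hc : c = 0
    · left
      rw [hc, zero_smul]
    rcases ih with rfl | ⟨g, hg, rfl⟩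
    · left
      rw [smul_zero]
    · obtain ⟨s, hs, hs'⟩ := scalar_mem (𝓐 := 𝓐) hc
      refine Or.inr ⟨s * g, Subgroup.mul_mem _ hs hg, ?_⟩
      rw [GeneralLinearGroup.coe_mul, hs', smul_mul_assoc, one_mul, smul_mulVec]
  | step z Φ t hΦ _ hdef ih =>
    obtain ⟨A, hA, rfl | rfl⟩ := hΦ
    · rw [act_to]
      rcases ih with rfl | ⟨g, hg, rfl⟩
      · left
        rw [mulVec_zero]
      · obtain ⟨a, ha, ha'⟩ := at_mem hA ((defined_to A _ t).1 hdef)
        refine Or.inr ⟨a * g, Subgroup.mul_mem _ ha hg, ?_⟩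
        rw [GeneralLinearGroup.coe_mul, ha', mulVec_mulVec]
    · rw [act_inv]
      rcases ih with rfl | ⟨g, hg, rfl⟩
      · left
        rw [mulVec_zero]
      · obtain ⟨a, ha, ha'⟩ := adj_mem hA ((defined_inv A _ t).1 hdef)
        refine Or.inr ⟨a * g, Subgroup.mul_mem _ ha hg, ?_⟩
        rw [GeneralLinearGroup.coe_mul, ha', mulVec_mulVec]

end

theorem reachIdeal_eq {𝓐 : Set (MatrixFamily K n)} (y : Fin (n + 1) → K) :
    reachIdeal (fams 𝓐) y = idealOf (orbit (grp 𝓐 (AlgebraicClosure K)) y) := by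
  ext f
  constructor
  · rintro hf z ⟨g, hg, rfl⟩
    exact hf _ (reach_grp hg _ Reach.refl)
  · intro hf z hz
    rcases grp_reach hz with rfl | ⟨g, hg, rfl⟩
    · -- the origin
      set w : Fin (n + 1) → AlgebraicClosure K :=
        fun i => algebraMap K (AlgebraicClosure K) (y i) with hw
      let p : Polynomial (AlgebraicClosure K) :=
        aeval (fun i => Polynomial.C (w i) * Polynomial.X) f
      have hp : ∀ c, p.eval c = aeval (c • w) f := by
        intro c
        have h1 : Polynomial.eval c p =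
            (Polynomial.aeval c) (aeval (fun i => Polynomial.C (w i) * Polynomial.X) f) := by
          rw [Polynomial.coe_aeval_eq_eval]
        rw [h1]
        have h2 : ((Polynomial.aeval c : Polynomial (AlgebraicClosure K) →ₐ[AlgebraicClosure K]
            AlgebraicClosure K).restrictScalars K).comp
            (aeval (fun i => Polynomial.C (w i) * Polynomial.X)) = aeval (c • w) := by
          apply MvPolynomial.algHom_ext
          intro i
          rw [AlgHom.comp_apply, aeval_X, aeval_X]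
          change Polynomial.aeval c (Polynomial.C (w i) * Polynomial.X) = c * w i
          rw [map_mul, Polynomial.aeval_C, Polynomial.aeval_X, mul_comm]
          rfl
        exact DFunLike.congr_fun h2 f
      have hzero : ∀ c : AlgebraicClosure K, c ≠ 0 → p.eval c = 0 := by
        intro c hc
        rw [hp]
        obtain ⟨s, hs, hs'⟩ := scalar_mem (𝓐 := 𝓐) hc
        have h1 := hf _ ⟨s, hs, rfl⟩
        rw [hs', smul_mulVec, one_mulVec] at h1
        exact h1
      have hp0 : p = 0 := by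
        refine Polynomial.eq_zero_of_infinite_isRoot p ?_
        refine Set.Infinite.mono (s := {c | c ≠ 0}) (fun c hc => hzero c hc) ?_
        exact (Set.finite_singleton (0 : AlgebraicClosure K)).infinite_compl
      have h3 := hp 0
      rw [hp0, Polynomial.eval_zero, zero_smul] at h3
      exact h3.symm
    · exact hf _ ⟨g, hg, rfl⟩

theorem stable_fams {S : Set (MvPolynomial (Fin (n + 1)) K)} {𝓐 : Set (MatrixFamily K n)}
    (hstab : ∀ g ∈ grp 𝓐 (AlgebraicClosure K), ∀ z : Fin (n + 1) → AlgebraicClosure K,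
      (∀ f ∈ S, aeval z f = 0) → ∀ f ∈ S, aeval ((g : Matrix _ _ _) *ᵥ z) f = 0) :
    ∀ Φ ∈ fams 𝓐, ∀ y : Fin (n + 1) → K, (∀ g ∈ S, eval y g = 0) → ∀ t : Fin Φ.m → K,
      Φ.Defined y t → ∀ g ∈ S, eval (Φ.act y t) g = 0 := by
  have hmap : ∀ (A : MatrixFamily K n) (t : Fin A.m → K),
      A.at (fun i => algebraMap K (AlgebraicClosure K) (t i)) =
        (A.at t).map (algebraMap K (AlgebraicClosure K)) := by
    intro A t
    ext i j
    change aeval (algebraMap K (AlgebraicClosure K) ∘ t) (A.mat i j) = _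
    rw [MvPolynomial.aeval_algebraMap_apply]
    rfl
  have hpt : ∀ (y : Fin (n + 1) → K), (∀ g ∈ S, eval y g = 0) → ∀ f ∈ S,
      aeval (fun i => algebraMap K (AlgebraicClosure K) (y i)) f = 0 := by
    intro y hy f hf
    have h1 := MvPolynomial.aeval_algebraMap_apply (AlgebraicClosure K) y f
    have h2 : aeval y f = 0 := hy f hf
    rw [h2, map_zero] at h1
    exact h1
  have hback : ∀ (M : Matrix (Fin (n + 1)) (Fin (n + 1)) K) (y : Fin (n + 1) → K)
      (f : MvPolynomial (Fin (n + 1)) K),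
      aeval (M.map (algebraMap K (AlgebraicClosure K)) *ᵥ
        fun i => algebraMap K (AlgebraicClosure K) (y i)) f = 0 → eval (M *ᵥ y) f = 0 := by
    intro M y f h
    have h1 : (M.map (algebraMap K (AlgebraicClosure K)) *ᵥ
        fun i => algebraMap K (AlgebraicClosure K) (y i)) =
        algebraMap K (AlgebraicClosure K) ∘ (M *ᵥ y) := by
      funext i
      exact (RingHom.map_mulVec (algebraMap K (AlgebraicClosure K)) M y i).symm
    rw [h1, MvPolynomial.aeval_algebraMap_apply, aeval_self] at h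
    exact (map_eq_zero _).1 h
  rintro Φ ⟨A, hA, rfl | rfl⟩ y hy t hdef f hf
  · rw [act_to]
    have hd := (defined_to A y t).1 hdef
    obtain ⟨g, hg, hg'⟩ := at_mem (E := AlgebraicClosure K) hA
      (t := fun i => algebraMap K (AlgebraicClosure K) (t i)) (by
        rw [hmap]
        have h1 := RingHom.map_det (algebraMap K (AlgebraicClosure K)) (A.at t)
        change det ((algebraMap K (AlgebraicClosure K)).mapMatrix (A.at t)) ≠ 0
        rw [← h1]
        exact (map_ne_zero _).2 hd)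
    apply hback
    rw [← hmap, ← hg']
    exact hstab g hg _ (hpt y hy) f hf
  · rw [act_inv]
    have hd := (defined_inv A y t).1 hdef
    obtain ⟨g, hg, hg'⟩ := adj_mem (E := AlgebraicClosure K) hA
      (t := fun i => algebraMap K (AlgebraicClosure K) (t i)) (by
        rw [hmap]
        have h1 := RingHom.map_det (algebraMap K (AlgebraicClosure K)) (A.at t)
        change det ((algebraMap K (AlgebraicClosure K)).mapMatrix (A.at t)) ≠ 0
        rw [← h1]
        exact (map_ne_zero _).2 hd)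
    apply hback
    have h1 : (A.at t).adjugate.map (algebraMap K (AlgebraicClosure K)) =
        (A.at (fun i => algebraMap K (AlgebraicClosure K) (t i))).adjugate := by
      rw [hmap]
      exact RingHom.map_adjugate (algebraMap K (AlgebraicClosure K)) (A.at t)
    rw [h1, ← hg']
    exact hstab g hg _ (hpt y hy) f hf

end Pool.Agent.K1H12.QH
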