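import Pool.Agent.K1H12.QH.Defs

/-!
# Local Zariski closures and algebraic families of symmetries
-/

set_option autoImplicit false

namespace Pool.Agent.K1H12.QH

open MvPolynomial Filter Topology

variable {K : Type} [Field K] {n : ℕ} {L : Type} [NontriviallyNormedField L]

theorem infinite_small {σ : K →+* L} (hσ : DenseRange σ) {T : Set L} (hT : T ∈ 𝓝 (0 : L)) :
    {a : K | σ a ∈ T}.Infinite := by
  intro hfin
  obtain ⟨U, hUT, hU, h0⟩ := mem_nhds_iff.1 hT
  have hF : (σ '' {a : K | σ a ∈ T}).Finite := hfin.image σ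
  have h1 : (U \ (σ '' {a : K | σ a ∈ T})).Nonempty := by
    have h2 : U.Infinite := infinite_of_mem_nhds 0 (hU.mem_nhds h0)
    exact (h2.diff hF).nonempty
  obtain ⟨a, haU, haF⟩ := hσ.exists_mem_open (hU.sdiff hF.isClosed) h1
  exact haF ⟨a, hUT haU, rfl⟩

theorem eval_smul_homog {R : Type} [CommRing R] {ι : Type} {p : MvPolynomial ι R} {d : ℕ}
    (hp : p.IsHomogeneous d) (c : R) (x : ι → R) : eval (c • x) p = c ^ d * eval x p := by
  rw [eval_eq, eval_eq, Finset.mul_sum]
  refine Finset.sum_congr rfl fun e he => ?_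
  have h1 := hp (mem_support_iff.1 he)
  simp only [Pi.smul_apply, smul_eq_mul, mul_pow, Finset.prod_mul_distrib]
  rw [Finset.prod_pow_eq_pow_sum]
  have h2 : ∑ i ∈ e.support, e i = d := by
    rw [← h1, Finsupp.weight_apply, Finsupp.sum]
    simp
  rw [h2]
  ring

theorem aeval_self {ι : Type} (x : ι → K) (p : MvPolynomial ι K) : aeval x p = eval x p := rfl

/-- a polynomial which vanishes at the small points over `K` is zero -/
theorem eq_zero_of_small {σ : K →+* L} (hσ : DenseRange σ) {ι : Type} {F : MvPolynomial ι K}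
    {W : Set (ι → L)} (hW : W ∈ 𝓝 (0 : ι → L))
    (h : ∀ t : ι → K, (fun i => σ (t i)) ∈ W → eval t F = 0) : F = 0 := by
  rw [nhds_pi, Filter.mem_pi] at hW
  obtain ⟨I, -, T, hT, hTW⟩ := hW
  refine MvPolynomial.funext_set (fun i => {a : K | σ a ∈ T i})
    (fun i => infinite_small hσ (hT i)) fun t ht => ?_
  rw [map_zero]
  refine h t (hTW ?_)
  intro i _
  exact ht i trivial

/-- the points which can be reached lie on rational families through `y` -/
theorem chain {S : Set (MvPolynomial (Fin (n + 1)) K)} {𝓕 : Set (Family K n)}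
    (hS : ∀ f ∈ S, ∃ d : ℕ, f.IsHomogeneous d)
    (h𝓕 : ∀ Φ ∈ 𝓕, ∀ y : Fin (n + 1) → K, (∀ g ∈ S, eval y g = 0) → ∀ t : Fin Φ.m → K,
      Φ.Defined y t → ∀ g ∈ S, eval (Φ.act y t) g = 0)
    {E : Type} [Field E] [Algebra K E] {y : Fin (n + 1) → K} (hy : ∀ g ∈ S, eval y g = 0)
    {z : Fin (n + 1) → E} (hz : Reach 𝓕 (fun i => algebraMap K E (y i)) z) :
    ∃ (ι : Type) (Ψ : Fin (n + 1) → MvPolynomial ι K) (Δ : MvPolynomial ι K) (t₀ : ι → E),
      (∀ j, eval 0 (Ψ j) = y j) ∧ aeval t₀ Δ ≠ 0 ∧ (∀ j, aeval t₀ (Ψ j) = z j) ∧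
      ∀ t : ι → K, eval t Δ ≠ 0 → ∀ g ∈ S, eval (fun j => eval t (Ψ j)) g = 0 := by
  induction hz with
  | refl =>
    refine ⟨Empty, fun j => C (y j), 1, Empty.elim, fun j => by simp, by simp, fun j => by simp,
      fun t _ g hg => ?_⟩
    simp only [eval_C]
    exact hy g hg
  | smul z c _ ih =>
    obtain ⟨ι, Ψ, Δ, t₀, h1, h2, h3, h4⟩ := ih
    refine ⟨Option ι, fun j => (1 + X none) * rename some (Ψ j), rename some Δ,
      fun o => o.elim (c - 1) t₀, fun j => ?_, ?_, fun j => ?_, fun t ht g hg => ?_⟩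
    · rw [map_mul, eval_rename, map_add, map_one, eval_X]
      have h5 : (0 : Option ι → K) ∘ some = 0 := rfl
      rw [h5, h1]
      simp
    · rw [aeval_rename]
      exact h2
    · rw [map_mul, aeval_rename, map_add, map_one, aeval_X]
      have h5 : (fun o : Option ι => o.elim (c - 1) t₀) ∘ some = t₀ := rfl
      rw [h5, h3]
      simp
    · rw [eval_rename] at ht
      obtain ⟨d, hd⟩ := hS g hg
      have h5 : (fun j => eval t ((1 + X none) * rename some (Ψ j))) =
          (1 + t none) • fun j => eval (t ∘ some) (Ψ j) := by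
        funext j
        rw [map_mul, eval_rename, map_add, map_one, eval_X]
        rfl
      rw [h5, eval_smul_homog hd, h4 _ ht g hg, mul_zero]
  | step z Φ s hΦ _ hdef ih =>
    obtain ⟨ι, Ψ, Δ, t₀, h1, h2, h3, h4⟩ := ih
    let v : Fin (n + 1) ⊕ Fin Φ.m → MvPolynomial (ι ⊕ Fin Φ.m) K :=
      Sum.elim (fun j => rename Sum.inl (Ψ j)) fun i => X (Sum.inr i)
    have hev : ∀ (t : ι ⊕ Fin Φ.m → K) (p : MvPolynomial (Fin (n + 1) ⊕ Fin Φ.m) K),
        eval t (bind₁ v p) = eval (Sum.elim (fun j => eval (t ∘ Sum.inl) (Ψ j))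
          (t ∘ Sum.inr)) p := by
      intro t p
      have h5 := eval₂Hom_bind₁ (RingHom.id K) t v p
      have h6 : (fun i => eval₂Hom (RingHom.id K) t (v i)) =
          Sum.elim (fun j => eval (t ∘ Sum.inl) (Ψ j)) (t ∘ Sum.inr) := by
        funext i
        rcases i with i | i
        · change eval t (rename Sum.inl (Ψ i)) = _
          rw [eval_rename]
          rfl
        · change eval t (X (Sum.inr i)) = _
          rw [eval_X]
          rfl
      rw [h6] at h5
      exact h5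
    have hav : ∀ (t : ι ⊕ Fin Φ.m → E) (p : MvPolynomial (Fin (n + 1) ⊕ Fin Φ.m) K),
        aeval t (bind₁ v p) = aeval (Sum.elim (fun j => aeval (t ∘ Sum.inl) (Ψ j))
          (t ∘ Sum.inr)) p := by
      intro t p
      rw [aeval_bind₁]
      congr 2
      funext i
      rcases i with i | i
      · change aeval t (rename Sum.inl (Ψ i)) = _
        rw [aeval_rename]
        rfl
      · change aeval t (X (Sum.inr i)) = _
        rw [aeval_X]
        rfl
    refine ⟨ι ⊕ Fin Φ.m, fun j => bind₁ v (Φ.map j), rename Sum.inl Δ * bind₁ v Φ.den,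
      Sum.elim t₀ s, fun j => ?_, ?_, fun j => ?_, fun t ht g hg => ?_⟩
    · rw [hev]
      have h5 : (fun j => eval ((0 : ι ⊕ Fin Φ.m → K) ∘ Sum.inl) (Ψ j)) = y := funext h1
      rw [h5]
      exact congrFun (Φ.at_zero y) j
    · rw [map_mul, aeval_rename, hav, Sum.elim_comp_inl, Sum.elim_comp_inr]
      have h5 : (fun j => aeval t₀ (Ψ j)) = z := funext h3
      rw [h5]
      exact mul_ne_zero h2 hdef
    · rw [hav, Sum.elim_comp_inl, Sum.elim_comp_inr]
      have h5 : (fun j => aeval t₀ (Ψ j)) = z := funext h3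
      rw [h5]
      rfl
    · rw [map_mul, eval_rename, hev] at ht
      have h5 := h4 _ (left_ne_zero_of_mul ht)
      have h6 := h𝓕 Φ hΦ _ h5 (t ∘ Sum.inr) (by
        rw [Family.Defined, aeval_self]
        exact right_ne_zero_of_mul ht) g hg
      have h7 : (fun j => eval t (bind₁ v (Φ.map j))) =
          Φ.act (fun j => eval (t ∘ Sum.inl) (Ψ j)) (t ∘ Sum.inr) := by
        funext j
        rw [hev, Family.act, aeval_self]
      rw [h7]
      exact h6

theorem eval_of_reach {𝓕 : Set (Family K n)} {y : Fin (n + 1) → K}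
    {f : MvPolynomial (Fin (n + 1)) K} (h : f ∈ reachIdeal 𝓕 y) (t : K) : eval (t • y) f = 0 := by
  have h1 := h _ (Reach.smul _ (algebraMap K (AlgebraicClosure K) t) Reach.refl)
  have h2 : (algebraMap K (AlgebraicClosure K) t • fun i =>
      algebraMap K (AlgebraicClosure K) (y i)) =
      (algebraMap K (AlgebraicClosure K)) ∘ (t • y) := by
    funext i
    simp
  rw [h2, MvPolynomial.aeval_algebraMap_apply, aeval_self] at h1
  exact (map_eq_zero _).1 h1

/-- **The local Zariski closures contain the points which can be reached.** -/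
theorem local_reach {σ : K →+* L} (hσ : DenseRange σ)
    {S : Set (MvPolynomial (Fin (n + 1)) K)} {𝓕 : Set (Family K n)}
    (hS : ∀ f ∈ S, ∃ d : ℕ, f.IsHomogeneous d)
    (h𝓕 : ∀ Φ ∈ 𝓕, ∀ y : Fin (n + 1) → K, (∀ g ∈ S, eval y g = 0) → ∀ t : Fin Φ.m → K,
      Φ.Defined y t → ∀ g ∈ S, eval (Φ.act y t) g = 0) (x : Fin (n + 1) → L) :
    localIdeal σ S x = {f | ∃ U ∈ 𝓝 x, ∀ y, IsPoint S y →
      (∃ c : L, c ≠ 0 ∧ (fun i => c * σ (y i)) ∈ U) → f ∈ reachIdeal 𝓕 y} := by
  ext f
  constructor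
  · rintro ⟨U, hU, h⟩
    obtain ⟨U', hU'U, hU'o, hxU'⟩ := mem_nhds_iff.1 hU
    refine ⟨U', hU'o.mem_nhds hxU', ?_⟩
    rintro y ⟨hy0, hy⟩ ⟨c, hc, hcy⟩ z hz
    obtain ⟨ι, Ψ, Δ, t₀, h1, h2, h3, h4⟩ := chain hS h𝓕 hy hz
    have hcont : ∀ j, Continuous fun τ : ι → L => eval₂ σ τ (Ψ j) := by
      intro j
      simp_rw [← eval_map]
      exact MvPolynomial.continuous_eval _
    have hat : ∀ j, eval₂ σ (0 : ι → L) (Ψ j) = σ (y j) := by
      intro j
      rw [← h1 j, eval₂_comp σ 0 (Ψ j)]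
      congr 1
      funext i
      simp
    have hσe : ∀ (t : ι → K) j, eval₂ σ (fun i => σ (t i)) (Ψ j) = σ (eval t (Ψ j)) := by
      intro t j
      rw [eval₂_comp σ t (Ψ j)]
      rfl
    have hW : {τ : ι → L | (fun j => c * eval₂ σ τ (Ψ j)) ∈ U' ∧
        (fun j => eval₂ σ τ (Ψ j)) ≠ 0} ∈ 𝓝 (0 : ι → L) := by
      have c1 : Continuous fun τ : ι → L => fun j => c * eval₂ σ τ (Ψ j) :=
        continuous_pi fun j => continuous_const.mul (hcont j)
      have c2 : Continuous fun τ : ι → L => fun j => eval₂ σ τ (Ψ j) := continuous_pi hcont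
      refine IsOpen.mem_nhds ((hU'o.preimage c1).inter (isOpen_compl_singleton.preimage c2))
        ⟨?_, ?_⟩
      · change (fun j => c * eval₂ σ (0 : ι → L) (Ψ j)) ∈ U'
        simp_rw [hat]
        exact hcy
      · change (fun j => eval₂ σ (0 : ι → L) (Ψ j)) ≠ 0
        simp_rw [hat]
        intro h5
        apply hy0
        funext j
        exact (map_eq_zero σ).1 (congrFun h5 j)
    have hF : bind₁ Ψ f * Δ = 0 := by
      refine eq_zero_of_small hσ hW fun t ht => ?_
      rw [map_mul]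
      by_cases hΔ : eval t Δ = 0
      · rw [hΔ, mul_zero]
      obtain ⟨ht1, ht2⟩ := ht
      simp_rw [hσe] at ht1 ht2
      have h5 := h (fun j => eval t (Ψ j)) (by
        intro h6
        apply ht2
        funext j
        have h7 := congrFun h6 j
        simp only [Pi.zero_apply] at h7
        rw [h7, map_zero]
        rfl) (h4 t hΔ) ⟨c, hc, hU'U ht1⟩ 1
      rw [one_smul] at h5
      have h6 : eval t (bind₁ Ψ f) = eval (fun j => eval t (Ψ j)) f :=
        eval₂Hom_bind₁ (RingHom.id K) t Ψ f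
      rw [h6, h5, zero_mul]
    have hΔ : Δ ≠ 0 := by
      rintro rfl
      exact h2 (map_zero _)
    have hF0 : bind₁ Ψ f = 0 := (mul_eq_zero.1 hF).resolve_right hΔ
    have h5 := congrArg (aeval t₀) hF0
    rw [aeval_bind₁, map_zero] at h5
    have h6 : (fun i => aeval t₀ (Ψ i)) = z := funext h3
    rw [h6] at h5
    exact h5
  · rintro ⟨U, hU, h⟩
    exact ⟨U, hU, fun y hy0 hy hc t => eval_of_reach (h y ⟨hy0, hy⟩ hc) t⟩

/-- The local Zariski closure at a point outside of the variety is empty. -/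
theorem local_outside {σ : K →+* L} {S : Set (MvPolynomial (Fin (n + 1)) K)}
    (hS : ∀ f ∈ S, ∃ d : ℕ, f.IsHomogeneous d) {x : Fin (n + 1) → L}
    (hx : ¬ ∀ g ∈ S, eval₂ σ x g = 0) : localIdeal σ S x = Set.univ := by
  push Not at hx
  obtain ⟨g, hg, hgx⟩ := hx
  obtain ⟨d, hd⟩ := hS g hg
  rw [Set.eq_univ_iff_forall]
  intro f
  have hcont : Continuous fun z : Fin (n + 1) → L => eval₂ σ z g := by
    simp_rw [← eval_map]
    exact MvPolynomial.continuous_eval _
  refine ⟨{z | eval₂ σ z g ≠ 0}, (isOpen_compl_singleton.preimage hcont).mem_nhds hgx, ?_⟩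
  rintro y - hy ⟨c, -, hc⟩
  exfalso
  apply hc
  have h1 : (fun i => c * σ (y i)) = c • (σ ∘ y) := rfl
  rw [h1, ← eval_map, eval_smul_homog (hd.map σ), eval_map, ← eval₂_comp, hy g hg, map_zero,
    mul_zero]

end Pool.Agent.K1H12.QH
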