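import Pool.Agent.K1H12.QH.Fin

/-!
# Toric varieties
-/

set_option autoImplicit false

namespace Pool.Agent.K1H12.QH

open MvPolynomial Filter Topology Matrix

variable {K : Type} [Field K] {n r : ℕ}

/-- the relation between the exponents -/
def Rel (a : Fin (n + 1) → Fin r → ℕ) (u v : Fin (n + 1) → ℕ) : Prop :=
  ∑ i, u i = ∑ i, v i ∧ ∀ j, ∑ i, a i j * u i = ∑ i, a i j * v i

theorem toric_homog (a : Fin (n + 1) → Fin r → ℕ) (c : Fin (n + 1) → K) :
    ∀ f ∈ toricEquations a c, ∃ d : ℕ, f.IsHomogeneous d := by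
  rintro f ⟨u, v, huv, -, rfl⟩
  refine ⟨∑ i, u i, ?_⟩
  have h1 : ∀ w : Fin (n + 1) → ℕ, (∏ i, (X i : MvPolynomial (Fin (n + 1)) K) ^ w i).IsHomogeneous
      (∑ i, w i) := by
    intro w
    refine IsHomogeneous.prod _ _ _ fun i _ => ?_
    have h2 := (isHomogeneous_X K i).pow (w i)
    rwa [one_mul] at h2
  refine IsHomogeneous.sub ?_ ?_
  · have h2 := (isHomogeneous_C (Fin (n + 1)) (∏ i, c i ^ v i)).mul (h1 u)
    rwa [zero_add] at h2
  · have h2 := (isHomogeneous_C (Fin (n + 1)) (∏ i, c i ^ u i)).mul (h1 v)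
    rwa [zero_add, ← huv] at h2

/-- the family of the torus -/
noncomputable def torusFamily (K : Type) [Field K] (a : Fin (n + 1) → Fin r → ℕ) :
    MatrixFamily K n where
  m := r
  mat := diagonal fun i => ∏ j, (1 + X j) ^ a i j
  at_zero := by
    rw [diagonal_map (map_zero _)]
    have h1 : (fun i => eval (0 : Fin r → K) (∏ j, (1 + X j) ^ a i j)) = fun _ => 1 := by
      funext i
      rw [map_prod]
      simp
    have h2 : ((eval (0 : Fin r → K)) ∘ fun i => ∏ j, (1 + X j) ^ a i j) = fun _ => 1 := h1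
    rw [← diagonal_one]
    congr 1

section

variable {E : Type} [Field E] [Algebra K E]

theorem torus_at (a : Fin (n + 1) → Fin r → ℕ) (t : Fin r → E) :
    (diagonal fun i => ∏ j, (1 + X j : MvPolynomial (Fin r) K) ^ a i j).map (aeval t) =
      diagonal fun i => ∏ j, (1 + t j) ^ a i j := by
  rw [diagonal_map (map_zero _)]
  congr 1
  funext i
  change aeval t (∏ j, (1 + X j) ^ a i j) = _
  rw [map_prod]
  simp

/-- the elements of the group -/
theorem torus_mem (a : Fin (n + 1) → Fin r → ℕ) {g : GL (Fin (n + 1)) E}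
    (hg : g ∈ grp {torusFamily K a} E) :
    ∃ d : Fin (n + 1) → E, (∀ i, d i ≠ 0) ∧
      (g : Matrix (Fin (n + 1)) (Fin (n + 1)) E) = diagonal d ∧
      ∀ u v, Rel a u v → ∏ i, d i ^ u i = ∏ i, d i ^ v i := by
  refine Subgroup.closure_induction (G := GL (Fin (n + 1)) E) (p := fun g _ =>
    ∃ d : Fin (n + 1) → E, (∀ i, d i ≠ 0) ∧
      (g : Matrix (Fin (n + 1)) (Fin (n + 1)) E) = diagonal d ∧
      ∀ u v, Rel a u v → ∏ i, d i ^ u i = ∏ i, d i ^ v i) ?_ ?_ ?_ ?_ hg
  · intro g hg
    have hdet : (g : Matrix (Fin (n + 1)) (Fin (n + 1)) E).det ≠ 0 :=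
      (GeneralLinearGroup.det g).ne_zero
    obtain ⟨d, hd, hrel⟩ : ∃ d : Fin (n + 1) → E,
        (g : Matrix (Fin (n + 1)) (Fin (n + 1)) E) = diagonal d ∧
        ∀ u v, Rel a u v → ∏ i, d i ^ u i = ∏ i, d i ^ v i := by
      rcases hg with ⟨c, hc⟩ | ⟨A, hA, t, ht⟩
      · refine ⟨fun _ => c, ?_, ?_⟩
        · rw [hc, smul_one_eq_diagonal]
        · intro u v huv
          rw [Finset.prod_pow_eq_pow_sum, Finset.prod_pow_eq_pow_sum, huv.1]
      · obtain rfl : A = torusFamily K a := hA
        change Fin r → E at t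
        refine ⟨fun i => ∏ j, (1 + t j) ^ a i j, ht.trans (torus_at (K := K) a t), ?_⟩
        · intro u v huv
          have h1 : ∀ w : Fin (n + 1) → ℕ, ∏ i, (∏ j, (1 + t j) ^ a i j) ^ w i =
              ∏ j, (1 + t j) ^ ∑ i, a i j * w i := by
            intro w
            simp_rw [← Finset.prod_pow, ← pow_mul]
            rw [Finset.prod_comm]
            refine Finset.prod_congr rfl fun j _ => ?_
            rw [Finset.prod_pow_eq_pow_sum]
          rw [h1, h1]
          refine Finset.prod_congr rfl fun j _ => ?_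
          rw [huv.2 j]
    refine ⟨d, fun i hi => hdet ?_, hd, hrel⟩
    rw [hd, det_diagonal]
    exact Finset.prod_eq_zero (Finset.mem_univ i) hi
  · refine ⟨fun _ => 1, fun _ => one_ne_zero, ?_, fun u v _ => by simp⟩
    rw [GeneralLinearGroup.coe_one, diagonal_one]
  · rintro g h _ _ ⟨d, h1, h2, h3⟩ ⟨e, h4, h5, h6⟩
    refine ⟨fun i => d i * e i, fun i => mul_ne_zero (h1 i) (h4 i), ?_, fun u v huv => ?_⟩
    · rw [GeneralLinearGroup.coe_mul, h2, h5, diagonal_mul_diagonal]
    · simp_rw [mul_pow, Finset.prod_mul_distrib]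
      rw [h3 u v huv, h6 u v huv]
  · rintro g _ ⟨d, h1, h2, h3⟩
    refine ⟨fun i => (d i)⁻¹, fun i => inv_ne_zero (h1 i), ?_, fun u v huv => ?_⟩
    · rw [coe_units_inv, h2]
      refine Matrix.inv_eq_left_inv ?_
      rw [diagonal_mul_diagonal, ← diagonal_one]
      congr 1
      funext i
      exact inv_mul_cancel₀ (h1 i)
    · simp_rw [inv_pow, Finset.prod_inv_distrib]
      rw [h3 u v huv]

end

/-- the equation at a point -/
theorem toric_eval {E : Type} [Field E] [Algebra K E] {a : Fin (n + 1) → Fin r → ℕ}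
    {c : Fin (n + 1) → K} {z : Fin (n + 1) → E}
    (hz : ∀ f ∈ toricEquations a c, aeval z f = 0) {u v : Fin (n + 1) → ℕ} (huv : Rel a u v) :
    algebraMap K E (∏ i, c i ^ v i) * ∏ i, z i ^ u i =
      algebraMap K E (∏ i, c i ^ u i) * ∏ i, z i ^ v i := by
  have h1 := hz _ ⟨u, v, huv.1, huv.2, rfl⟩
  simp only [map_sub, map_mul, algHom_C, map_prod, map_pow, aeval_X, sub_eq_zero] at h1 ⊢
  exact h1

theorem toric_stable (a : Fin (n + 1) → Fin r → ℕ) (c : Fin (n + 1) → K) :
    Stable (toricEquations a c) (grp {torusFamily K a} (AlgebraicClosure K)) := by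
  intro g hg z hz f hf
  obtain ⟨d, hd0, hd, hrel⟩ := torus_mem a hg
  obtain ⟨u, v, h1, h2, rfl⟩ := hf
  have huv : Rel a u v := ⟨h1, h2⟩
  have hz' := toric_eval hz huv
  have h3 : (g : Matrix (Fin (n + 1)) (Fin (n + 1)) (AlgebraicClosure K)) *ᵥ z =
      fun i => d i * z i := by
    rw [hd]
    funext i
    rw [mulVec_diagonal]
  rw [h3]
  simp only [map_sub, map_mul, algHom_C, map_prod, map_pow, aeval_X, sub_eq_zero, mul_pow,
    Finset.prod_mul_distrib] at hz' ⊢
  rw [← hrel u v huv, mul_left_comm, hz', mul_left_comm]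

/-- points with the same coordinates zero lie in the same orbit -/
theorem same_orbit {E : Type} [Field E] [IsAlgClosed E] [Algebra K E]
    {a : Fin (n + 1) → Fin r → ℕ}
    {c : Fin (n + 1) → K} (hc : ∀ i, c i ≠ 0) {z z' : Fin (n + 1) → E}
    (hz : ∀ f ∈ toricEquations a c, aeval z f = 0) (hz' : ∀ f ∈ toricEquations a c, aeval z' f = 0)
    (hs : ∀ i, z i = 0 ↔ z' i = 0) :
    ∃ g ∈ grp {torusFamily K a} E, z' = (g : Matrix (Fin (n + 1)) (Fin (n + 1)) E) *ᵥ z := by
  classical
  -- the ratios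
  let I := {i : Fin (n + 1) // z i ≠ 0}
  let ρ : I → Eˣ := fun i => Units.mk0 (z' i / z i) (div_ne_zero (fun h => i.2 ((hs _).2 h)) i.2)
  let b : I → (Option (Fin r) → ℤ) := fun i o => o.elim 1 fun j => (a i j : ℤ)
  let F : (I → ℤ) →ₗ[ℤ] (Option (Fin r) → ℤ) :=
    { toFun := fun w o => ∑ i, w i * b i o
      map_add' := fun w w' => by
        funext o
        simp only [Pi.add_apply, add_mul, Finset.sum_add_distrib]
      map_smul' := fun k w => by
        funext o
        simp only [Pi.smul_apply, smul_eq_mul, RingHom.id_apply, Finset.mul_sum, mul_assoc] }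
  let g : (I → ℤ) →ₗ[ℤ] Additive Eˣ :=
    { toFun := fun w => Additive.ofMul (∏ i, ρ i ^ w i)
      map_add' := fun w w' => by
        rw [← ofMul_mul, ← Finset.prod_mul_distrib]
        congr 1
        refine Finset.prod_congr rfl fun i _ => ?_
        rw [Pi.add_apply, _root_.zpow_add]
      map_smul' := fun k w => by
        rw [RingHom.id_apply, ← ofMul_zpow, ← Finset.prod_zpow]
        congr 1
        refine Finset.prod_congr rfl fun i _ => ?_
        rw [Pi.smul_apply, smul_eq_mul, mul_comm, _root_.zpow_mul] }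
  have hker : LinearMap.ker F ≤ LinearMap.ker g := by
    intro w hw
    rw [LinearMap.mem_ker] at hw ⊢
    -- positive and negative parts
    let u : Fin (n + 1) → ℕ := fun i => if h : z i ≠ 0 then (w ⟨i, h⟩).toNat else 0
    let v : Fin (n + 1) → ℕ := fun i => if h : z i ≠ 0 then (-w ⟨i, h⟩).toNat else 0
    have huv : ∀ i : I, (u i : ℤ) - v i = w i := by
      intro i
      have h1 : u i = (w i).toNat := dif_pos i.2
      have h2 : v i = (-w i).toNat := dif_pos i.2
      rw [h1, h2]
      omega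
    have hout : ∀ i, ¬ z i ≠ 0 → u i = 0 ∧ v i = 0 := fun i hi => ⟨dif_neg hi, dif_neg hi⟩
    have hsum : ∀ h : Fin (n + 1) → ℤ, ∑ i, h i * ((u i : ℤ) - v i) = ∑ i : I, w i * h i := by
      intro h
      have h1 : ∑ i : I, w i * h i = ∑ i : I, h i * ((u i : ℤ) - v i) :=
        Finset.sum_congr rfl fun i _ => by rw [huv, mul_comm]
      rw [h1]
      have h2 : ∑ i ∈ Finset.univ.filter (fun i => z i ≠ 0), h i * ((u i : ℤ) - v i) =
          ∑ i : I, h i * ((u i : ℤ) - v i) :=
        Finset.sum_subtype (p := fun i => z i ≠ 0) _ (fun i => by simp) _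
      rw [← h2, Finset.sum_filter]
      refine Finset.sum_congr rfl fun i _ => ?_
      by_cases hi : z i ≠ 0
      · rw [if_pos hi]
      · rw [if_neg hi, (hout i hi).1, (hout i hi).2]
        simp
    have hrel : Rel a u v := by
      constructor
      · have h1 := congrFun hw none
        have h2 := hsum fun _ => 1
        have h3 : ∑ i : I, w i * (1 : ℤ) = 0 := h1
        rw [h3] at h2
        simp only [one_mul, Finset.sum_sub_distrib, sub_eq_zero] at h2
        exact_mod_cast h2
      · intro j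
        have h1 := congrFun hw (some j)
        have h2 := hsum fun i => (a i j : ℤ)
        have h3 : ∑ i : I, w i * (a i j : ℤ) = 0 := h1
        rw [h3] at h2
        simp only [mul_sub, Finset.sum_sub_distrib, sub_eq_zero] at h2
        exact_mod_cast h2
    have e1 := toric_eval hz hrel
    have e2 := toric_eval hz' hrel
    have hpos : ∀ w : Fin (n + 1) → ℕ, (∀ i, ¬ z i ≠ 0 → w i = 0) →
        ∏ i, z i ^ w i ≠ 0 ∧ ∏ i, z' i ^ w i = (∏ i, z i ^ w i) * ∏ i : I, (ρ i : E) ^ w i := by
      intro w hw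
      refine ⟨Finset.prod_ne_zero_iff.2 fun i _ => ?_, ?_⟩
      · by_cases hi : z i ≠ 0
        · exact pow_ne_zero _ hi
        · rw [hw i hi, pow_zero]
          exact one_ne_zero
      · have h2 : ∏ i ∈ Finset.univ.filter (fun i => z i ≠ 0), (z' i / z i) ^ w i =
            ∏ i : I, (z' i / z i) ^ w i :=
          Finset.prod_subtype (p := fun i => z i ≠ 0) _ (fun i => by simp) _
        have h3 : ∏ i : I, (ρ i : E) ^ w i = ∏ i, (if z i ≠ 0 then (z' i / z i) ^ w i else 1) := by
          rw [← Finset.prod_filter, h2]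
          rfl
        rw [h3, ← Finset.prod_mul_distrib]
        refine Finset.prod_congr rfl fun i _ => ?_
        by_cases hi : z i ≠ 0
        · rw [if_pos hi, ← mul_pow, mul_div_cancel₀ _ hi]
        · rw [if_neg hi, hw i hi, pow_zero, pow_zero, one_mul]
    obtain ⟨hu0, hu1⟩ := hpos u fun i hi => (hout i hi).1
    obtain ⟨hv0, hv1⟩ := hpos v fun i hi => (hout i hi).2
    have hcne : ∀ w : Fin (n + 1) → ℕ, algebraMap K E (∏ i, c i ^ w i) ≠ 0 := fun w =>
      (map_ne_zero _).2 (Finset.prod_ne_zero_iff.2 fun i _ => pow_ne_zero _ (hc i))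
    have key : ∏ i : I, (ρ i : E) ^ u i = ∏ i : I, (ρ i : E) ^ v i := by
      rw [hu1, hv1, ← mul_assoc, ← mul_assoc, e1] at e2
      exact mul_left_cancel₀ (mul_ne_zero (hcne u) hv0) e2
    change Additive.ofMul (∏ i, ρ i ^ w i) = 0
    rw [← ofMul_one]
    congr 1
    have h5 : ∏ i, ρ i ^ w i = (∏ i : I, ρ i ^ u i) * (∏ i : I, ρ i ^ v i)⁻¹ := by
      rw [← Finset.prod_inv_distrib, ← Finset.prod_mul_distrib]
      refine Finset.prod_congr rfl fun i _ => ?_
      rw [← huv i, _root_.zpow_sub, _root_.zpow_natCast, _root_.zpow_natCast]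
    rw [h5]
    have h6 : (∏ i : I, ρ i ^ u i) = ∏ i : I, ρ i ^ v i := by
      apply Units.ext
      rw [Units.coe_prod, Units.coe_prod]
      simp_rw [Units.val_pow_eq_pow_val]
      exact key
    rw [h6, mul_inv_cancel]
  -- the extension
  have hdiv : Module.Baer ℤ (Additive Eˣ) := by
    have h1 : DivisibleBy (Additive Eˣ) ℤ := by
      refine divisibleByOfSMulRightSurj _ _ fun {m} hm x => ?_
      have habs : 0 < m.natAbs := Int.natAbs_pos.2 hm
      obtain ⟨y, hy⟩ := IsAlgClosed.exists_pow_nat_eq ((x.toMul : Eˣ) : E) habs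
      have hy0 : y ≠ 0 := by
        rintro rfl
        rw [zero_pow habs.ne'] at hy
        exact (x.toMul).ne_zero hy.symm
      have hy' : (Units.mk0 y hy0) ^ m.natAbs = x.toMul := Units.ext (by
        rw [Units.val_pow_eq_pow_val]
        exact hy)
      rcases Int.natAbs_eq m with h | h
      · refine ⟨Additive.ofMul (Units.mk0 y hy0), ?_⟩
        change m • Additive.ofMul (Units.mk0 y hy0) = x
        rw [h, ← ofMul_zpow, _root_.zpow_natCast, hy']
        rfl
      · refine ⟨Additive.ofMul (Units.mk0 y hy0)⁻¹, ?_⟩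
        change m • Additive.ofMul (Units.mk0 y hy0)⁻¹ = x
        rw [h, ← ofMul_zpow, _root_.zpow_neg, _root_.zpow_natCast, inv_pow, inv_inv, hy']
        rfl
    exact Module.Baer.of_divisible _
  obtain ⟨ψ, hψ⟩ := hdiv.extension_property ((LinearMap.ker F).liftQ F le_rfl)
    (LinearMap.ker_eq_bot.1 (Submodule.ker_liftQ_eq_bot _ _ _ le_rfl))
    ((LinearMap.ker F).liftQ g hker)
  have hψ' : ∀ w, ψ (F w) = g w := fun w =>
    LinearMap.congr_fun hψ ((LinearMap.ker F).mkQ w)
  have hψb : ∀ i : I, ψ (b i) = Additive.ofMul (ρ i) := by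
    intro i
    have h1 : F (Pi.single i 1) = b i := by
      funext o
      change ∑ k, (Pi.single i (1 : ℤ) : I → ℤ) k * b k o = b i o
      rw [Finset.sum_eq_single i]
      · rw [Pi.single_eq_same, one_mul]
      · intro k _ hk
        rw [Pi.single_eq_of_ne hk, zero_mul]
      · intro h
        exact absurd (Finset.mem_univ i) h
    rw [← h1, hψ']
    change Additive.ofMul (∏ k, ρ k ^ (Pi.single i (1 : ℤ) : I → ℤ) k) = _
    rw [Finset.prod_eq_single i]
    · rw [Pi.single_eq_same, _root_.zpow_one]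
    · intro k _ hk
      rw [Pi.single_eq_of_ne hk, _root_.zpow_zero]
    · intro h
      exact absurd (Finset.mem_univ i) h
  let s : Eˣ := (ψ (Pi.single none 1)).toMul
  let τ : Fin r → Eˣ := fun j => (ψ (Pi.single (some j) 1)).toMul
  have hρ : ∀ i : I, (ρ i : E) = s * ∏ j, (τ j : E) ^ a i j := by
    intro i
    have h1 : b i = Pi.single none 1 + ∑ j, (a i j : ℤ) • (Pi.single (some j) 1 :
        Option (Fin r) → ℤ) := by
      funext o
      rw [Pi.add_apply, Finset.sum_apply]
      rcases o with _ | j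
      · rw [Pi.single_eq_same, Finset.sum_eq_zero, add_zero]
        · rfl
        · intro j _
          rw [Pi.smul_apply, Pi.single_eq_of_ne (by simp), smul_zero]
      · rw [Pi.single_eq_of_ne (by simp), zero_add, Finset.sum_eq_single j]
        · rw [Pi.smul_apply, Pi.single_eq_same, smul_eq_mul, mul_one]
          rfl
        · intro k _ hk
          rw [Pi.smul_apply, Pi.single_eq_of_ne (by simpa using hk.symm), smul_zero]
        · intro h
          exact absurd (Finset.mem_univ j) h
    have h2 : ρ i = s * ∏ j, τ j ^ a i j := by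
      have h3 := hψb i
      rw [h1, map_add, map_sum] at h3
      have h4 := congrArg Additive.toMul h3
      rw [toMul_add, toMul_sum] at h4
      rw [toMul_ofMul] at h4
      rw [← h4]
      congr 1
      refine Finset.prod_congr rfl fun j _ => ?_
      rw [map_zsmul, toMul_zsmul, _root_.zpow_natCast]
    rw [h2]
    push_cast
    rfl
  let g₁ : GL (Fin (n + 1)) E := GeneralLinearGroup.mkOfDetNeZero ((s : E) • 1) (by
    rw [det_smul, det_one, mul_one]
    exact pow_ne_zero _ s.ne_zero)
  let D : Matrix (Fin (n + 1)) (Fin (n + 1)) E := diagonal fun i => ∏ j, (τ j : E) ^ a i j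
  let g₂ : GL (Fin (n + 1)) E := GeneralLinearGroup.mkOfDetNeZero D (by
    change (diagonal _).det ≠ 0
    rw [det_diagonal]
    exact Finset.prod_ne_zero_iff.2 fun i _ => Finset.prod_ne_zero_iff.2 fun j _ =>
      pow_ne_zero _ (τ j).ne_zero)
  have hg₁ : g₁ ∈ grp {torusFamily K a} E := Subgroup.subset_closure (Or.inl ⟨s, rfl⟩)
  have hg₂ : g₂ ∈ grp {torusFamily K a} E := by
    refine Subgroup.subset_closure (Or.inr ⟨torusFamily K a, rfl,
      (fun j => (τ j : E) - 1 : Fin r → E), ?_⟩)
    have h1 := torus_at (K := K) a (fun j => (τ j : E) - 1 : Fin r → E)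
    refine Eq.trans ?_ h1.symm
    change (diagonal fun i => ∏ j, (τ j : E) ^ a i j) = _
    congr 1
    funext i
    refine Finset.prod_congr rfl fun j _ => ?_
    rw [add_sub_cancel]
  refine ⟨g₁ * g₂, Subgroup.mul_mem _ hg₁ hg₂, ?_⟩
  rw [GeneralLinearGroup.coe_mul]
  change z' = (((s : E) • 1) * D) *ᵥ z
  rw [smul_mul_assoc, one_mul, smul_mulVec]
  funext i
  rw [Pi.smul_apply, mulVec_diagonal, smul_eq_mul]
  by_cases hi : z i = 0
  · rw [hi, (hs i).1 hi, mul_zero, mul_zero]
  · have h1 := hρ ⟨i, hi⟩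
    change z' i / z i = _ at h1
    rw [← mul_assoc, ← h1, div_mul_cancel₀ _ hi]

theorem toric_orbits (a : Fin (n + 1) → Fin r → ℕ) {c : Fin (n + 1) → K} (hc : ∀ i, c i ≠ 0)
    (S' : Set (MvPolynomial (Fin (n + 1)) K)) :
    (orbits (toricEquations a c) S' (grp {torusFamily K a} (AlgebraicClosure K))).Finite := by
  classical
  have hpt : ∀ (y : Fin (n + 1) → K), (∀ g ∈ toricEquations a c, eval y g = 0) →
      ∀ f ∈ toricEquations a c,
      aeval (fun i => algebraMap K (AlgebraicClosure K) (y i)) f = 0 := by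
    intro y hy f hf
    have h1 := MvPolynomial.aeval_algebraMap_apply (AlgebraicClosure K) y f
    have h2 : aeval y f = 0 := hy f hf
    rw [h2, map_zero] at h1
    exact h1
  let P : Set (Fin (n + 1) → K) := {y | IsPoint (toricEquations a c) y ∧ ¬ IsPoint S' y}
  let supp : (Fin (n + 1) → K) → Set (Fin (n + 1)) := fun y => {i | y i = 0}
  have hsame : ∀ y y', IsPoint (toricEquations a c) y → IsPoint (toricEquations a c) y' →
      supp y = supp y' → orbit (grp {torusFamily K a} (AlgebraicClosure K)) y =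
        orbit (grp {torusFamily K a} (AlgebraicClosure K)) y' := by
    intro y y' hy hy' h
    have h0 : ∀ i, y i = 0 ↔ y' i = 0 := fun i => Set.ext_iff.1 h i
    obtain ⟨g, hg, hgy⟩ := same_orbit (E := AlgebraicClosure K) hc (hpt y hy.2) (hpt y' hy'.2)
      (fun i => by rw [map_eq_zero, map_eq_zero]; exact h0 i)
    ext w
    constructor
    · rintro ⟨k, hk, rfl⟩
      refine ⟨k * g⁻¹, Subgroup.mul_mem _ hk (Subgroup.inv_mem _ hg), ?_⟩
      rw [hgy, mulVec_mulVec, ← GeneralLinearGroup.coe_mul, inv_mul_cancel_right]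
    · rintro ⟨k, hk, rfl⟩
      refine ⟨k * g, Subgroup.mul_mem _ hk hg, ?_⟩
      rw [hgy, mulVec_mulVec, ← GeneralLinearGroup.coe_mul]
  have hfin : (supp '' P).Finite := Set.toFinite _
  choose! y hy using fun (t : Set (Fin (n + 1))) (ht : t ∈ supp '' P) => ht
  refine (hfin.image fun t => orbit (grp {torusFamily K a} (AlgebraicClosure K)) (y t)).subset ?_
  rintro _ ⟨w, hw, hw', rfl⟩
  have h1 : supp w ∈ supp '' P := ⟨w, ⟨hw, hw'⟩, rfl⟩
  refine ⟨supp w, h1, ?_⟩
  exact hsame _ _ (hy _ h1).1.1 hw (hy _ h1).2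

theorem toric {L : Type} [NontriviallyNormedField L] {σ : K →+* L} (hσ : DenseRange σ)
    (a : Fin (n + 1) → Fin r → ℕ) {c : Fin (n + 1) → K} (hc : ∀ i, c i ≠ 0) :
    (localIdeals σ (toricEquations a c)).Finite := by
  have h := (groups hσ (S := toricEquations a c) (S' := insert 1 (toricEquations a c)) (by
    rintro f (rfl | hf)
    · exact ⟨0, isHomogeneous_one _ _⟩
    · exact toric_homog a c f hf) (Set.subset_insert _ _) (toric_stable a c)
    (toric_orbits a hc _)).2
  refine h ?_
  have h1 : localIdeals σ (insert 1 (toricEquations a c)) = ∅ := by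
    rw [Set.eq_empty_iff_forall_notMem]
    rintro J ⟨x, -, hx, -⟩
    have h2 := hx 1 (Set.mem_insert _ _)
    rw [eval₂_one] at h2
    exact one_ne_zero h2
  rw [h1]
  exact Set.finite_empty

end Pool.Agent.K1H12.QH
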